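import Pool.Agent.Helper25.GG.Defs

/-!
GG-2: independence in a gain graph only depends on the gains and on the equality pattern of the
ends of the edges.
-/

namespace Pool.Agent.Helper25.GG

variable {V V' H : Type} [Group H]

omit [Group H] in
theorem transfer_vs (G : GGraph V H) (G' : GGraph V' H) (ψ : ℕ → ℕ) (θ : V → V') {X Y : Set ℕ}
    (hY : Y ⊆ X) (hθ : ∀ e ∈ X, ∀ b, θ (G.en b e) = G'.en b (ψ e)) :
    G'.vs (ψ '' Y) = θ '' G.vs Y := by
  ext v
  rw [GGraph.mem_vs]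
  constructor
  · rintro ⟨_, ⟨e, he, rfl⟩, b, rfl⟩
    exact ⟨G.en b e, G.en_mem_vs he b, hθ e (hY he) b⟩
  · rintro ⟨w, hw, rfl⟩
    obtain ⟨e, he, b, rfl⟩ := GGraph.mem_vs.mp hw
    exact ⟨ψ e, ⟨e, he, rfl⟩, b, (hθ e (hY he) b).symm⟩

theorem ind_transfer (G : GGraph V H) (G' : GGraph V' H) (ψ : ℕ → ℕ) {X : Set ℕ}
    (hX : X.Finite) (hψ : Set.InjOn ψ X) (hγ : ∀ e ∈ X, G'.γ (ψ e) = G.γ e)
    (hen : ∀ e ∈ X, ∀ e' ∈ X, ∀ b b',
      G.en b e = G.en b' e' ↔ G'.en b (ψ e) = G'.en b' (ψ e')) :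
    G.Ind X ↔ G'.Ind (ψ '' X) := by
  classical
  rcases X.eq_empty_or_nonempty with rfl | ⟨e₀, he₀⟩
  · rw [Set.image_empty]
    constructor
    · intro _ Y hY hne
      exact absurd (Set.subset_empty_iff.mp hY) hne.ne_empty
    · intro _ Y hY hne
      exact absurd (Set.subset_empty_iff.mp hY) hne.ne_empty
  -- the vertex map
  have hθ : ∃ θ : V → V', ∀ e ∈ X, ∀ b, θ (G.en b e) = G'.en b (ψ e) := by
    refine ⟨fun v => if h : ∃ p : ℕ × Bool, p.1 ∈ X ∧ G.en p.2 p.1 = v then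
      G'.en h.choose.2 (ψ h.choose.1) else G'.en true (ψ e₀), fun e he b => ?_⟩
    have h : ∃ p : ℕ × Bool, p.1 ∈ X ∧ G.en p.2 p.1 = G.en b e := ⟨(e, b), he, rfl⟩
    simp only [dif_pos h]
    exact (hen _ h.choose_spec.1 e he _ _).mp h.choose_spec.2
  obtain ⟨θ, hθ⟩ := hθ
  have hinj : Set.InjOn θ (G.vs X) := by
    intro v hv w hw h
    obtain ⟨e, he, b, rfl⟩ := GGraph.mem_vs.mp hv
    obtain ⟨e', he', b', rfl⟩ := GGraph.mem_vs.mp hw
    rw [hθ e he, hθ e' he'] at h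
    exact (hen e he e' he' b b').mpr h
  have hcard : ∀ Y ⊆ X, (G'.vs (ψ '' Y)).ncard = (G.vs Y).ncard := by
    intro Y hY
    rw [transfer_vs G G' ψ θ hY hθ]
    exact (hinj.mono (G.vs_mono hY)).ncard_image
  have hcardE : ∀ Y ⊆ X, (ψ '' Y).ncard = Y.ncard := fun Y hY => (hψ.mono hY).ncard_image
  have hbal : ∀ Y ⊆ X, (G'.Bal (ψ '' Y) ↔ G.Bal Y) := by
    intro Y hY
    constructor
    · rintro ⟨φ, hφ⟩
      refine ⟨φ ∘ θ, fun e he => ?_⟩
      have h1 := hφ (ψ e) ⟨e, he, rfl⟩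
      have h2 := hθ e (hY he) false
      have h3 := hθ e (hY he) true
      simp only [GGraph.en_false, GGraph.en_true] at h2 h3
      rw [Function.comp, Function.comp, h2, h3, ← h1, hγ e (hY he)]
    · rintro ⟨φ, hφ⟩
      have : Nonempty V := ⟨G.tl e₀⟩
      refine ⟨φ ∘ Function.invFunOn θ (G.vs X), ?_⟩
      rintro _ ⟨e, he, rfl⟩
      have h2 := hθ e (hY he) false
      have h3 := hθ e (hY he) true
      simp only [GGraph.en_false, GGraph.en_true] at h2 h3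
      have h4 := hinj.leftInvOn_invFunOn (G.en_mem_vs (hY he) false)
      have h5 := hinj.leftInvOn_invFunOn (G.en_mem_vs (hY he) true)
      simp only [GGraph.en_false, GGraph.en_true] at h4 h5
      rw [Function.comp, Function.comp, ← h2, ← h3, h4, h5, hγ e (hY he)]
      exact hφ e he
  constructor
  · intro h Z hZ hne
    obtain ⟨Y, hY, rfl⟩ := Set.subset_image_iff.mp hZ
    have hYne : Y.Nonempty := Set.image_nonempty.mp hne
    rw [hcard Y hY, hcardE Y hY, hbal Y hY]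
    exact h Y hY hYne
  · intro h Y hY hne
    rw [← hcard Y hY, ← hcardE Y hY, ← hbal Y hY]
    exact h _ (Set.image_mono hY) (hne.image ψ)

end Pool.Agent.Helper25.GG
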