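import Pool.Agent.Helper25.GG.Defs

/-!
Second part of the definitions: components, bounded-depth decompositions, pieces.
-/

namespace Pool.Agent.Helper25.GG

variable {H : Type} [Group H]

/-- The component of `x` in `M`. -/
def comp (M : Matroid ℕ) (x : ℕ) : Set ℕ :=
  {y | y = x ∨ ∃ C, M.IsCircuit C ∧ x ∈ C ∧ y ∈ C}

/-- A bounded-depth decomposition of the edge set `K` of `G` relative to the roots
`ρ 0, …, ρ (p - 1)`. -/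
def DD (c : ℕ) (G : GGraph ℕ H) : ℕ → ℕ → (ℕ → ℕ) → Set ℕ → Prop
  | 0, _, _, K => K = ∅
  | k + 1, p, ρ, K => ∃ l : List (Set ℕ × Set ℕ × (ℕ → ℕ)),
      K = {e | ∃ x ∈ l, e ∈ x.1 ∪ x.2.1} ∧
      (∀ x ∈ l, x.1.Finite ∧ x.1.ncard ≤ c ∧ Disjoint x.1 x.2.1 ∧ (∀ a < p, x.2.2 a = ρ a) ∧
        G.vs x.1 ⊆ x.2.2 '' Set.Iio (p + 2 * c) ∧ DD c G k (p + 2 * c) x.2.2 x.2.1) ∧
      l.Pairwise fun x y => Disjoint (x.1 ∪ x.2.1) (y.1 ∪ y.2.1) ∧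
        G.vs (x.1 ∪ x.2.1) ∩ G.vs (y.1 ∪ y.2.1) ⊆ ρ '' Set.Iio p

/-- A rooted piece of a gain graph: the graph, the naming of roots, the edge set. -/
abbrev Piece (H : Type) := GGraph ℕ H × (ℕ → ℕ) × Set ℕ

omit [Group H] in
/-- Rooted embedding: an injection of the edges that preserves gains, the equality pattern of
ends, and the `p` roots. -/
def Emb (p : ℕ) (A B : Piece H) : Prop :=
  ∃ ψ : ℕ → ℕ, Set.InjOn ψ A.2.2 ∧ (∀ e ∈ A.2.2, ψ e ∈ B.2.2) ∧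
    (∀ e ∈ A.2.2, B.1.γ (ψ e) = A.1.γ e) ∧
    (∀ a < p, ∀ a' < p, A.2.1 a = A.2.1 a' ↔ B.2.1 a = B.2.1 a') ∧
    (∀ e ∈ A.2.2, ∀ b, ∀ a < p, A.1.en b e = A.2.1 a ↔ B.1.en b (ψ e) = B.2.1 a) ∧
    (∀ e ∈ A.2.2, ∀ e' ∈ A.2.2, ∀ b b',
      A.1.en b e = A.1.en b' e' ↔ B.1.en b (ψ e) = B.1.en b' (ψ e'))

/-- Indexed pieces: the `P i j` with `i ∈ I`, `j < s` are distinct elements of `M.E \ A`, and
each piece `P i '' Iio s` is a separator of `M ／ A`. -/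
structure Pcs (M : Matroid ℕ) (A : Set ℕ) (s : ℕ) (I : Set ℕ) (P : ℕ → ℕ → ℕ) : Prop where
  sub : A ⊆ M.E
  mem : ∀ i ∈ I, ∀ j < s, P i j ∈ M.E \ A
  inj : ∀ i ∈ I, ∀ i' ∈ I, ∀ j < s, ∀ j' < s, P i j = P i' j' → i = i' ∧ j = j'
  sepr : ∀ i ∈ I, Sepr (M.contract A) (P i '' Set.Iio s)

omit [Group H] in
/-- Pieces `i` and `i'` look the same in `G` (relative to the vertices of `A`). -/
def SameSig (G : GGraph ℕ H) (A : Set ℕ) (s : ℕ) (P : ℕ → ℕ → ℕ) (i i' : ℕ) : Prop :=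
  (∀ j < s, G.γ (P i j) = G.γ (P i' j)) ∧
  (∀ j < s, ∀ b, (G.en b (P i j) ∈ G.vs A ∨ G.en b (P i' j) ∈ G.vs A) →
    G.en b (P i j) = G.en b (P i' j)) ∧
  (∀ j < s, ∀ j' < s, ∀ b b',
    G.en b (P i j) = G.en b' (P i j') ↔ G.en b (P i' j) = G.en b' (P i' j'))

/-- `σ` swaps the pieces `i` and `i'` and fixes every other edge. -/
def IsSwap (s : ℕ) (P : ℕ → ℕ → ℕ) (i i' : ℕ) (σ : ℕ → ℕ) : Prop :=
  (∀ j < s, σ (P i j) = P i' j) ∧ (∀ j < s, σ (P i' j) = P i j) ∧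
    ∀ e, e ∉ P i '' Set.Iio s → e ∉ P i' '' Set.Iio s → σ e = e

end Pool.Agent.Helper25.GG
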