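import Mathlib

/-!
Gain graphs and their frame matroids, in the encoding of the frozen statement `S07929`
(problem MP_305b31_co).  Edge names are natural numbers.
-/

namespace Pool.Agent.Helper25.GG

/-- A gain graph with vertices in `V`, labels in `H`; every natural number names an edge. -/
structure GGraph (V H : Type) where
  /-- tail -/
  tl : ℕ → V
  /-- head -/
  hd : ℕ → V
  /-- gain -/
  γ : ℕ → H

variable {V V' H : Type}

/-- The two ends of an edge. -/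
def GGraph.en (G : GGraph V H) (b : Bool) (e : ℕ) : V := if b then G.hd e else G.tl e

/-- The vertices met by a set of edges. -/
def GGraph.vs (G : GGraph V H) (X : Set ℕ) : Set V := G.tl '' X ∪ G.hd '' X

variable [Group H]

/-- `X` is balanced: it has a potential. -/
def GGraph.Bal (G : GGraph V H) (X : Set ℕ) : Prop :=
  ∃ φ : V → H, ∀ e ∈ X, G.γ e = (φ (G.tl e))⁻¹ * φ (G.hd e)

/-- Independence in the frame matroid. -/
def GGraph.Ind (G : GGraph V H) (I : Set ℕ) : Prop :=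
  ∀ X ⊆ I, X.Nonempty →
    X.ncard ≤ (G.vs X).ncard ∧ (G.Bal X → X.ncard + 1 ≤ (G.vs X).ncard)

/-- `M` is the frame matroid of `G` (on the edges `M.E`). -/
def GGraph.Rep (G : GGraph V H) (M : Matroid ℕ) : Prop :=
  M.E.Finite ∧ ∀ I ⊆ M.E, (M.Indep I ↔ G.Ind I)

/-- `M` is a (finite) gain-graphic matroid. -/
def GainGraphic (H : Type) [Group H] (M : Matroid ℕ) : Prop := ∃ G : GGraph ℕ H, G.Rep M

/-- `S` is a separator of `M`: every circuit that meets `S` lies in `S`. -/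
def Sepr (M : Matroid ℕ) (S : Set ℕ) : Prop :=
  ∀ C, M.IsCircuit C → (C ∩ S).Nonempty → C ⊆ S

/-- `G` represents `M`, and a separator `K` of a contraction `M ／ A` meets the rest of the
graph only in vertices of `A`. -/
def GGraph.Opt (G : GGraph ℕ H) (M : Matroid ℕ) : Prop :=
  G.Rep M ∧ ∀ A ⊆ M.E, ∀ K ⊆ M.E \ A, Sepr (M.contract A) K →
    G.vs K ∩ G.vs (M.E \ (A ∪ K)) ⊆ G.vs A

/-- Isomorphism of matroids in the encoding of the frozen statement. -/
def Iso (M N : Matroid ℕ) : Prop :=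
  ∃ f : ℕ → ℕ, Set.BijOn f M.E N.E ∧ ∀ I ⊆ M.E, (M.Indep I ↔ N.Indep (f '' I))

/-- All circuits have at most `c` elements. -/
def CircLe (M : Matroid ℕ) (c : ℕ) : Prop := ∀ C, M.IsCircuit C → C.ncard ≤ c

omit [Group H] in
theorem GGraph.en_true (G : GGraph V H) (e : ℕ) : G.en true e = G.hd e := rfl

omit [Group H] in
theorem GGraph.en_false (G : GGraph V H) (e : ℕ) : G.en false e = G.tl e := rfl

omit [Group H] in
theorem GGraph.mem_vs {G : GGraph V H} {X : Set ℕ} {v : V} :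
    v ∈ G.vs X ↔ ∃ e ∈ X, ∃ b, G.en b e = v := by
  constructor
  · rintro (⟨e, he, rfl⟩ | ⟨e, he, rfl⟩)
    · exact ⟨e, he, false, rfl⟩
    · exact ⟨e, he, true, rfl⟩
  · rintro ⟨e, he, b, rfl⟩
    cases b
    · exact Or.inl ⟨e, he, rfl⟩
    · exact Or.inr ⟨e, he, rfl⟩

omit [Group H] in
theorem GGraph.en_mem_vs (G : GGraph V H) {X : Set ℕ} {e : ℕ} (he : e ∈ X) (b : Bool) :
    G.en b e ∈ G.vs X := GGraph.mem_vs.mpr ⟨e, he, b, rfl⟩

omit [Group H] in
theorem GGraph.vs_mono (G : GGraph V H) {X Y : Set ℕ} (h : X ⊆ Y) : G.vs X ⊆ G.vs Y := by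
  intro v hv
  obtain ⟨e, he, b, rfl⟩ := GGraph.mem_vs.mp hv
  exact G.en_mem_vs (h he) b

omit [Group H] in
theorem GGraph.vs_union (G : GGraph V H) (X Y : Set ℕ) : G.vs (X ∪ Y) = G.vs X ∪ G.vs Y := by
  ext v
  simp only [GGraph.mem_vs, Set.mem_union]
  constructor
  · rintro ⟨e, he | he, b, rfl⟩
    · exact Or.inl ⟨e, he, b, rfl⟩
    · exact Or.inr ⟨e, he, b, rfl⟩
  · rintro (⟨e, he, b, rfl⟩ | ⟨e, he, b, rfl⟩)
    · exact ⟨e, Or.inl he, b, rfl⟩
    · exact ⟨e, Or.inr he, b, rfl⟩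

omit [Group H] in
theorem GGraph.vs_finite (G : GGraph V H) {X : Set ℕ} (h : X.Finite) : (G.vs X).Finite :=
  (h.image _).union (h.image _)

theorem GGraph.Bal.mono {G : GGraph V H} {X Y : Set ℕ} (h : G.Bal Y) (hXY : X ⊆ Y) : G.Bal X := by
  obtain ⟨φ, hφ⟩ := h
  exact ⟨φ, fun e he => hφ e (hXY he)⟩

theorem GGraph.Ind.mono {G : GGraph V H} {X Y : Set ℕ} (h : G.Ind Y) (hXY : X ⊆ Y) : G.Ind X :=
  fun Z hZ => h Z (hZ.trans hXY)

end Pool.Agent.Helper25.GG
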