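import Pool.Agent.Helper21.GG.Opt
import Pool.Agent.Helper21.GG.Swap
import Pool.Agent.Helper21.GG.Clone
import Pool.Agent.Helper4.GG.Sep
import Pool.Agent.Helper4.GG.Sig
import Pool.Agent.Helper66.GG.Many

/-!
GG-12: a large matroid with bounded circuits all of whose single-element deletions are
gain-graphic is gain-graphic.
-/

namespace Pool.Agent.Helper25.GG

variable {H : Type} [Group H]

/-- A permutation that is an automorphism of enough deletions is an automorphism. -/
theorem excl_aut {N : Matroid ℕ} (hN : N.E.Finite) {c : ℕ} (hc : CircLe N c) {σ : ℕ → ℕ}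
    (hinv : ∀ e, σ (σ e) = e) (hE : ∀ X ⊆ N.E, σ '' X ⊆ N.E) (f : ℕ → ℕ)
    (hf : Set.InjOn f (Set.Iio (c + 1)))
    (haut : ∀ k < c + 1, ∀ X ⊆ N.E, f k ∉ X → (N.Indep X ↔ N.Indep (σ '' X))) :
    ∀ X ⊆ N.E, (N.Indep X ↔ N.Indep (σ '' X)) := by
  have key : ∀ X ⊆ N.E, ¬ N.Indep X → ¬ N.Indep (σ '' X) := by
    intro X hX hdep hind
    have hdep' : N.Dep X := ⟨hdep, hX⟩
    obtain ⟨C, hCX, hC⟩ := hdep'.exists_isCircuit_subset
    have hCfin : C.Finite := hN.subset hC.subset_ground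
    have hex : ∃ k < c + 1, f k ∉ C := by
      by_contra hno
      push Not at hno
      have h1 : f '' Set.Iio (c + 1) ⊆ C := by
        rintro _ ⟨k, hk, rfl⟩
        exact hno k hk
      have h2 := Set.ncard_le_ncard h1 hCfin
      rw [hf.ncard_image, Set.ncard_Iio_nat] at h2
      have h3 := hc C hC
      omega
    obtain ⟨k, hk, hkC⟩ := hex
    have h4 := (haut k hk C hC.subset_ground hkC).not.mp hC.not_indep
    exact h4 (hind.subset (Set.image_mono hCX))
  intro X hX
  constructor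
  · intro h
    by_contra hno
    have h5 := key (σ '' X) (hE X hX) hno
    rw [← Set.image_comp] at h5
    have h6 : (σ ∘ σ) '' X = X := by
      have : σ ∘ σ = id := by funext e; exact hinv e
      rw [this, Set.image_id]
    rw [h6] at h5
    exact h5 h
  · intro h
    by_contra hno
    exact key X hX hno h

theorem Pcs.delete' {N : Matroid ℕ} {A : Set ℕ} {s : ℕ} {I I' : Set ℕ} {P : ℕ → ℕ → ℕ}
    (hP : Pcs N A s I P) {f : ℕ} (hf : f ∉ A) (hI' : I' ⊆ I)
    (hne : ∀ i ∈ I', ∀ j < s, P i j ≠ f) : Pcs (N.delete {f}) A s I' P where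
  sub := by
    intro e he
    refine ⟨hP.sub he, ?_⟩
    rintro rfl
    exact hf he
  mem := by
    intro i hi j hj
    have h := hP.mem i (hI' hi) j hj
    exact ⟨⟨h.1, hne i hi j hj⟩, h.2⟩
  inj := fun i hi i' hi' => hP.inj i (hI' hi) i' (hI' hi')
  sepr := fun i hi => (hP.sepr i (hI' hi)).delete
    (Set.disjoint_singleton_left.mpr hf)

theorem excl_core (H : Type) [Group H] [Finite H] (c a s : ℕ) (hs : 0 < s) : ∃ t : ℕ,
    ∀ N : Matroid ℕ, N.E.Finite → CircLe N c → (∀ x ∈ N.E, GainGraphic H (N.delete {x})) →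
    ∀ (A : Set ℕ) (I : Finset ℕ) (P : ℕ → ℕ → ℕ), A.ncard ≤ a → t ≤ I.card →
      Pcs N A s I P → GainGraphic H N := by
  obtain ⟨t3, ht3⟩ := exists_sameSig H a s 1 (c + 2 * a + 2)
  obtain ⟨t1, ht1⟩ := exists_sameSig H a s (c + 1) (t3 + 1)
  refine ⟨t1 + c + 1, fun N hN hc hdel A I P ha hI hP => ?_⟩
  have hAfin : A.Finite := hN.subset hP.sub
  obtain ⟨R, hRI, hRc⟩ := Finset.exists_subset_card_eq (show c + 1 ≤ I.card by omega)
  let e := R.equivFinOfCardEq hRc
  let r : ℕ → ℕ := fun k => if h : k < c + 1 then (e.symm ⟨k, h⟩ : ℕ) else 0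
  have hr : ∀ k < c + 1, r k ∈ R := by
    intro k hk
    simp only [r, dif_pos hk]
    exact (e.symm ⟨k, hk⟩).2
  have hrinj : ∀ k < c + 1, ∀ k' < c + 1, r k = r k' → k = k' := by
    intro k hk k' hk' h
    simp only [r, dif_pos hk, dif_pos hk'] at h
    have h1 := e.symm.injective (Subtype.ext h)
    simpa using h1
  let f : ℕ → ℕ := fun k => P (r k) 0
  have hfE : ∀ k < c + 1, f k ∈ N.E \ A := fun k hk => hP.mem _ (hRI (hr k hk)) 0 hs
  have hG : ∀ k, ∃ G : GGraph ℕ H, k < c + 1 → G.Opt (N.delete {f k}) := by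
    intro k
    by_cases hk : k < c + 1
    · obtain ⟨G, hG⟩ := exists_opt (hdel _ (hfE k hk).1)
      exact ⟨G, fun _ => hG⟩
    · exact ⟨⟨fun _ => 0, fun _ => 0, fun _ => 1⟩, fun h => absurd h hk⟩
  choose Gs hGs using hG
  have hcard : t1 ≤ (I \ R).card := by
    rw [Finset.card_sdiff_of_subset hRI, hRc]
    omega
  obtain ⟨I1, hI1, hI1c, hsig⟩ := ht1 (I \ R) hcard Gs A hAfin ha P
  obtain ⟨t0, ht0⟩ : I1.Nonempty := by
    rw [← Finset.card_pos]; omega
  have hI1I : ∀ i ∈ I1, i ∈ I := fun i hi => (Finset.mem_sdiff.mp (hI1 hi)).1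
  have hI1R : ∀ i ∈ I1, i ∉ R := fun i hi => (Finset.mem_sdiff.mp (hI1 hi)).2
  obtain ⟨G, hGopt⟩ := exists_opt (hdel _ (hP.mem t0 (hI1I t0 ht0) 0 hs).1)
  have hcard2 : t3 ≤ (I1.erase t0).card := by
    rw [Finset.card_erase_of_mem ht0]; omega
  obtain ⟨J, hJ, hJc, hJsig⟩ := ht3 (I1.erase t0) hcard2 (fun _ => G) A hAfin ha P
  have hJI1 : ∀ i ∈ J, i ∈ I1 := fun i hi => Finset.mem_of_mem_erase (hJ hi)
  have hJt0 : t0 ∉ J := fun h => (Finset.mem_erase.mp (hJ h)).1 rfl
  refine clone hN hc hP ha hs (hI1I t0 ht0) hGopt (fun i hi => hI1I i (hJI1 i hi)) hJt0 hJc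
    (fun i hi i' hi' => hJsig i hi i' hi' 0 (by norm_num)) ?_
  intro i hi σ hσ
  have hti : t0 ≠ i := by
    rintro rfl
    exact hJt0 hi
  obtain ⟨hinv, hEσ⟩ := hσ.invol hP (hI1I t0 ht0) (hI1I i (hJI1 i hi)) hti
  -- the reserved elements are outside the pieces with index outside `R`
  have hne : ∀ k < c + 1, ∀ i' ∈ I1, ∀ j < s, P i' j ≠ f k := by
    intro k hk i' hi' j hj h
    have h1 := (hP.inj i' (hI1I i' hi') (r k) (hRI (hr k hk)) j hj 0 hs h).1
    exact hI1R i' hi' (h1 ▸ hr k hk)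
  have hfix : ∀ k < c + 1, σ (f k) = f k := by
    intro k hk
    apply hσ.2.2
    · rintro ⟨j, hj, h⟩
      exact hne k hk t0 ht0 j hj h
    · rintro ⟨j, hj, h⟩
      exact hne k hk i (hJI1 i hi) j hj h
  refine excl_aut hN hc hinv hEσ f ?_ ?_
  · intro k hk k' hk' h
    have h1 := hP.inj (r k) (hRI (hr k hk)) (r k') (hRI (hr k' hk')) 0 hs 0 hs h
    exact hrinj k hk k' hk' h1.1
  · intro k hk X hX hkX
    have hPk : Pcs (N.delete {f k}) A s (I1 : Set ℕ) P :=
      hP.delete' (hfE k hk).2 (fun i' hi' => hI1I i' hi') (fun i' hi' => hne k hk i' hi')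
    have hXk : X ⊆ (N.delete {f k}).E := by
      intro x hx
      refine ⟨hX hx, ?_⟩
      rintro rfl
      exact hkX hx
    have h1 := swap_aut (hGs k hk) hPk ht0 (hJI1 i hi) hti
      (hsig t0 ht0 i (hJI1 i hi) k hk) hσ X hXk
    rw [Matroid.delete_indep_iff, Matroid.delete_indep_iff] at h1
    have hd1 : Disjoint X {f k} := Set.disjoint_singleton_right.mpr hkX
    have hd2 : Disjoint (σ '' X) {f k} := by
      rw [Set.disjoint_singleton_right]
      rintro ⟨x, hx, hxk⟩
      have : x = f k := by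
        have h2 := congrArg σ hxk
        rw [hinv, hfix k hk] at h2
        exact h2
      exact hkX (this ▸ hx)
    simpa only [hd1, hd2, and_true] using h1

theorem excl (H : Type) [Group H] [Finite H] (c : ℕ) : ∃ n₀ : ℕ, ∀ N : Matroid ℕ,
    N.E.Finite → CircLe N c → (∀ x ∈ N.E, GainGraphic H (N.delete {x})) →
    n₀ ≤ N.E.ncard → GainGraphic H N := by
  choose t ht using fun a s => excl_core H c a (s + 1) (Nat.succ_pos s)
  obtain ⟨n₀, hn₀⟩ := pieces_exist c (fun a b => (∑ s ∈ Finset.range b, t a s) + 1)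
  refine ⟨n₀, fun N hN hc hdel hcard => ?_⟩
  obtain ⟨a, b, A, hA, ha, K, hK, hdisj⟩ := hn₀ N hN hc hcard
  set T := (∑ s ∈ Finset.range b, t a s) + 1 with hT
  have hKfin : ∀ i < T, (K i).Finite := fun i hi => hN.subset ((hK i hi).1.trans Set.sdiff_subset)
  have hKpos : ∀ i < T, 0 < (K i).ncard := fun i hi =>
    (Set.ncard_pos (hKfin i hi)).mpr (hK i hi).2.1
  -- pigeonhole on the sizes
  have hex : ∃ s < b, t a s ≤ ((Finset.range T).filter fun i => (K i).ncard = s + 1).card := by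
    by_contra hno
    push Not at hno
    have h1 : (Finset.range T).card = ∑ s ∈ Finset.range b,
        ((Finset.range T).filter fun i => (K i).ncard - 1 = s).card := by
      apply Finset.card_eq_sum_card_fiberwise
      intro i hi
      have hi' : i < T := by simpa using hi
      have h2 := (hK i hi').2.2.1
      have h3 := hKpos i hi'
      simp only [Finset.coe_range, Set.mem_Iio]
      omega
    have h2 : ∑ s ∈ Finset.range b, ((Finset.range T).filter fun i => (K i).ncard - 1 = s).card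
        ≤ ∑ s ∈ Finset.range b, t a s := by
      apply Finset.sum_le_sum
      intro s hs
      have h3 := hno s (Finset.mem_range.mp hs)
      refine le_trans (Finset.card_le_card ?_) h3.le
      intro i hi
      simp only [Finset.mem_filter, Finset.mem_range] at hi ⊢
      have h4 := hKpos i hi.1
      exact ⟨hi.1, by omega⟩
    rw [Finset.card_range] at h1
    omega
  obtain ⟨s, hsb, hs⟩ := hex
  set I := (Finset.range T).filter fun i => (K i).ncard = s + 1 with hI
  have hIT : ∀ i ∈ I, i < T := fun i hi => by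
    simp only [hI, Finset.mem_filter, Finset.mem_range] at hi
    exact hi.1
  have hIc : ∀ i ∈ I, (K i).ncard = s + 1 := fun i hi => by
    simp only [hI, Finset.mem_filter, Finset.mem_range] at hi
    exact hi.2
  have henum : ∀ i, ∃ g : ℕ → ℕ, i ∈ I → Set.BijOn g (Set.Iio (s + 1)) (K i) := by
    intro i
    by_cases hi : i ∈ I
    · have hfin := hKfin i (hIT i hi)
      have hc1 : (Set.Iio (s + 1) : Set ℕ).encard = (K i).encard := by
        rw [← hfin.cast_ncard_eq, hIc i hi, ← (Set.finite_Iio (s + 1)).cast_ncard_eq,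
          Set.ncard_Iio_nat]
      obtain ⟨g, hg⟩ := (Set.finite_Iio (s + 1)).exists_bijOn_of_encard_eq hc1
      exact ⟨g, fun _ => hg⟩
    · exact ⟨id, fun h => absurd h hi⟩
  choose P hPb using henum
  refine ht a s N hN hc hdel A I P ha hs ⟨hA, ?_, ?_, ?_⟩
  · intro i hi j hj
    have hi' : i ∈ I := hi
    exact (hK i (hIT i hi')).1 ((hPb i hi').mapsTo hj)
  · intro i hi i' hi' j hj j' hj' h
    have h1 : P i j ∈ K i := (hPb i hi).mapsTo hj
    have h2 : P i' j' ∈ K i' := (hPb i' hi').mapsTo hj'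
    have hii : i = i' := by
      by_contra hne
      exact Set.disjoint_left.mp (hdisj i (hIT i hi) i' (hIT i' hi') hne) h1 (h ▸ h2)
    subst hii
    exact ⟨rfl, (hPb i hi).injOn hj hj' h⟩
  · intro i hi
    rw [(hPb i hi).image_eq]
    exact (hK i (hIT i hi)).2.2.2

end Pool.Agent.Helper25.GG
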