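import Pool.Agent.Helper25.GG.Excl
import Pool.Agent.Helper25.GG.Transfer
import Pool.Agent.Helper4.GG.Depth
import Pool.Agent.Helper10.GG.Wqo

/-!
GG-13: final assembly.
-/

namespace Pool.Agent.Helper25.GG

variable {H : Type} [Group H]

theorem Iso.symm {M N : Matroid ℕ} (h : Iso M N) : Iso N M := by
  obtain ⟨f, hf, hI⟩ := h
  have hinv := hf.invOn_invFunOn
  have hs : Set.BijOn (Function.invFunOn f M.E) N.E M.E := Set.BijOn.symm hinv.symm hf
  refine ⟨Function.invFunOn f M.E, hs, fun I hI' => ?_⟩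
  have h1 : Function.invFunOn f M.E '' I ⊆ M.E := by
    rintro _ ⟨x, hx, rfl⟩
    exact hs.mapsTo (hI' hx)
  rw [hI _ h1]
  have h2 : f '' (Function.invFunOn f M.E '' I) = I := by
    rw [← Set.image_comp]
    have : Set.EqOn (f ∘ Function.invFunOn f M.E) id I := fun x hx => hinv.2 (hI' hx)
    rw [this.image_eq, Set.image_id]
  rw [h2]

theorem gainGraphic_iff (M : Matroid ℕ) : GainGraphic H M ↔
    (M.E.Finite ∧ ∃ (n : ℕ) (tl hd : ℕ → Fin n) (γ : ℕ → H),
      ∀ I ⊆ M.E, (M.Indep I ↔ ∀ X ⊆ I, X.Nonempty →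
        (X.ncard ≤ (tl '' X ∪ hd '' X).ncard ∧
          ((∃ φ : Fin n → H, ∀ e ∈ X, γ e = (φ (tl e))⁻¹ * φ (hd e)) →
            X.ncard + 1 ≤ (tl '' X ∪ hd '' X).ncard)))) := by
  constructor
  · rintro ⟨G, hfin, hG⟩
    refine ⟨hfin, ?_⟩
    obtain ⟨n, hn⟩ := (G.vs_finite hfin).bddAbove
    have hlt : ∀ e ∈ M.E, ∀ b, G.en b e < n + 1 := fun e he b =>
      Nat.lt_succ_of_le (hn (G.en_mem_vs he b))
    let G' : GGraph (Fin (n + 1)) H :=
      ⟨fun e => ⟨min (G.tl e) n, by omega⟩, fun e => ⟨min (G.hd e) n, by omega⟩, G.γ⟩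
    refine ⟨n + 1, G'.tl, G'.hd, G'.γ, fun I hI => ?_⟩
    rw [hG I hI]
    have h1 := ind_transfer G G' id (hfin.subset hI) Function.injective_id.injOn (fun _ _ => rfl) ?_
    · rw [Set.image_id] at h1
      exact h1
    · intro e he e' he' b b'
      have hv : ∀ e ∈ M.E, ∀ b, (G'.en b e : ℕ) = G.en b e := by
        intro e he b
        have h2 := hlt e he b
        cases b
        · simp only [GGraph.en_false] at h2 ⊢
          simp only [G']
          omega
        · simp only [GGraph.en_true] at h2 ⊢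
          simp only [G']
          omega
      rw [Fin.ext_iff, id, id, hv e (hI he) b, hv e' (hI he') b']
  · rintro ⟨hfin, n, tl, hd, γ, h⟩
    let G : GGraph (Fin n) H := ⟨tl, hd, γ⟩
    let G' : GGraph ℕ H := ⟨fun e => (tl e : ℕ), fun e => (hd e : ℕ), γ⟩
    refine ⟨G', hfin, fun I hI => ?_⟩
    rw [h I hI]
    have h1 := ind_transfer G G' id (hfin.subset hI) Function.injective_id.injOn (fun _ _ => rfl) ?_
    · rw [Set.image_id] at h1
      exact h1
    · intro e he e' he' b b'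
      have hv : ∀ e b, G'.en b e = (G.en b e : ℕ) := by
        intro e b
        cases b <;> rfl
      rw [id, id, hv, hv, Fin.ext_iff]

theorem wqo (H : Type) [Group H] [Finite H] (c : ℕ) (M : ℕ → Matroid ℕ)
    (hg : ∀ n, GainGraphic H (M n)) (hc : ∀ n, CircLe (M n) c) :
    ∃ m n, m < n ∧ ∃ ψ : ℕ → ℕ, Set.InjOn ψ (M m).E ∧ (∀ e ∈ (M m).E, ψ e ∈ (M n).E) ∧
      ∀ I ⊆ (M m).E, ((M m).Indep I ↔ (M n).Indep (ψ '' I)) := by
  choose G hG using fun n => exists_opt (hg n)
  have hD : ∀ n, DD (c + 1) (G n) (c + 1 + 1) 0 id (M n).E := by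
    intro n
    refine opt_dd (hG n) (by omega) (c + 1) le_rfl ∅ (Set.empty_subset _) (M n).E
      (by simp) ?_ ?_ id 0 ?_
    · intro C hC _
      rw [Matroid.contract_empty] at hC
      exact hC.subset_ground
    · intro D hD _
      rw [Matroid.contract_empty] at hD
      exact (hc n D hD).trans (Nat.le_succ c)
    · intro v hv
      obtain ⟨e, he, _⟩ := GGraph.mem_vs.mp hv
      exact absurd he (Set.notMem_empty e)
  obtain ⟨m, n, hmn, ψ, hinj, hmaps, hγ, -, -, hen⟩ := (dd_pwo (c + 1) (c + 1 + 1) 0).exists_lt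
    (f := fun n => (G n, id, (M n).E)) (fun n => hD n)
  refine ⟨m, n, hmn, ψ, hinj, hmaps, fun I hI => ?_⟩
  have hfin := (hG m).1.1
  rw [(hG m).1.2 I hI]
  have h1 : ψ '' I ⊆ (M n).E := by
    rintro _ ⟨e, he, rfl⟩
    exact hmaps e (hI he)
  rw [(hG n).1.2 _ h1]
  exact ind_transfer (G m) (G n) ψ (hfin.subset hI) (hinj.mono hI)
    (fun e he => hγ e (hI he)) (fun e he e' he' => hen e (hI he) e' (hI he'))

theorem delete_isMinor' (M : Matroid ℕ) (D : Set ℕ) : Matroid.IsMinor (M.delete D) M :=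
  ⟨∅, D, by rw [Matroid.contract_empty]⟩

theorem contract_isMinor' (M : Matroid ℕ) (C : Set ℕ) : Matroid.IsMinor (M.contract C) M :=
  ⟨C, ∅, by rw [Matroid.delete_empty]⟩

theorem restrict_isMinor' {M : Matroid ℕ} {R : Set ℕ} (hR : R ⊆ M.E) :
    Matroid.IsMinor (M.restrict R) M := by
  have h := delete_isMinor' M (M.E \ R)
  rwa [Matroid.delete_eq_restrict, Set.sdiff_sdiff_cancel_left hR] at h

/-- An infinite set of natural numbers indexing finite matroids of bounded size contains two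
isomorphic ones. -/
theorem exists_iso_of_small (f : ℕ → Matroid ℕ) (hfin : ∀ n, (f n).E.Finite) {T : Set ℕ}
    (hT : T.Infinite) (n₀ : ℕ) (hs : ∀ n ∈ T, (f n).E.ncard < n₀) :
    ∃ m ∈ T, ∃ n ∈ T, m ≠ n ∧ Iso (f m) (f n) := by
  classical
  have henum : ∀ n, ∃ g : ℕ → ℕ, Set.BijOn g (Set.Iio (f n).E.ncard) (f n).E := by
    intro n
    have hc1 : (Set.Iio (f n).E.ncard : Set ℕ).encard = (f n).E.encard := by
      rw [← (hfin n).cast_ncard_eq, ← (Set.finite_Iio (f n).E.ncard).cast_ncard_eq,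
        Set.ncard_Iio_nat]
    obtain ⟨g, hg⟩ := (Set.finite_Iio (f n).E.ncard).exists_bijOn_of_encard_eq hc1
    exact ⟨g, hg⟩
  choose g hg using henum
  let code : ℕ → ℕ × Finset (Finset ℕ) := fun n => ((f n).E.ncard,
    ((Finset.range n₀).powerset).filter fun I => (f n).Indep (g n '' I))
  have hmaps : Set.MapsTo code T
      ((Finset.range n₀ ×ˢ (Finset.range n₀).powerset.powerset :
        Finset (ℕ × Finset (Finset ℕ))) : Set (ℕ × Finset (Finset ℕ))) := by
    intro n hn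
    simp only [code, Finset.coe_product, Set.mem_prod, Finset.mem_coe, Finset.mem_range,
      Finset.mem_powerset]
    exact ⟨hs n hn, Finset.filter_subset _ _⟩
  obtain ⟨m, hm, n, hn, hmn, hcode⟩ := hT.exists_ne_map_eq_of_mapsTo hmaps (Finset.finite_toSet _)
  refine ⟨m, hm, n, hn, hmn, ?_⟩
  simp only [code, Prod.mk.injEq] at hcode
  obtain ⟨hc, hf⟩ := hcode
  have hinv := (hg m).invOn_invFunOn
  set gi := Function.invFunOn (g m) (Set.Iio (f m).E.ncard) with hgi
  have hbi : Set.BijOn gi (f m).E (Set.Iio (f m).E.ncard) := Set.BijOn.symm hinv.symm (hg m)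
  have hbn : Set.BijOn (g n) (Set.Iio (f m).E.ncard) (f n).E := by rw [hc]; exact hg n
  refine ⟨g n ∘ gi, hbn.comp hbi, fun I hI => ?_⟩
  have hJ : gi '' I ⊆ Set.Iio (f m).E.ncard := by
    rintro _ ⟨x, hx, rfl⟩
    exact hbi.mapsTo (hI hx)
  have hJfin : (gi '' I).Finite := (Set.finite_Iio _).subset hJ
  have hJr : hJfin.toFinset ∈ (Finset.range n₀).powerset := by
    rw [Finset.mem_powerset]
    intro x hx
    rw [Set.Finite.mem_toFinset] at hx
    have h1 := hJ hx
    rw [Set.mem_Iio] at h1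
    rw [Finset.mem_range]
    exact h1.trans (hs m hm)
  have h2 := congrArg (fun F => hJfin.toFinset ∈ F) hf
  simp only [Finset.mem_filter, hJr, true_and, Set.Finite.coe_toFinset, eq_iff_iff] at h2
  have h3 : g m '' (gi '' I) = I := by
    rw [← Set.image_comp]
    have : Set.EqOn (g m ∘ gi) id I := fun x hx => hinv.2 (hI hx)
    rw [this.image_eq, Set.image_id]
  rw [h3, ← Set.image_comp] at h2
  exact h2

theorem final (H : Type) [Group H] [Finite H] (𝓜 : Set (Matroid ℕ))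
    (hg : ∀ M ∈ 𝓜, GainGraphic H M)
    (hi : ∀ M ∈ 𝓜, ∀ N : Matroid ℕ, Iso M N → N ∈ 𝓜) (c : ℕ) :
    ∃ S : Finset (Matroid ℕ), ∀ N : Matroid ℕ, N.E.Finite → N ∉ 𝓜 →
      (∀ N' : Matroid ℕ, Matroid.IsMinor N' N → N' ≠ N → N' ∈ 𝓜) → CircLe N c →
      ∃ M ∈ S, Iso N M := by
  classical
  by_contra hno
  push Not at hno
  let P : Matroid ℕ → Prop := fun N => N.E.Finite ∧ N ∉ 𝓜 ∧
    (∀ N' : Matroid ℕ, Matroid.IsMinor N' N → N' ≠ N → N' ∈ 𝓜) ∧ CircLe N c
  obtain ⟨f, hfP, hfr⟩ := exists_seq_of_forall_finset_exists P (fun M N => ¬ Iso N M)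
    (fun s _ => by
      obtain ⟨N, h1, h2, h3, h4, h5⟩ := hno s
      exact ⟨N, ⟨h1, h2, h3, h4⟩, h5⟩)
  obtain ⟨n₀, hn₀⟩ := excl H c
  have hsmall : ∀ n, ¬ GainGraphic H (f n) → (f n).E.ncard < n₀ := by
    intro n hn
    by_contra hlt
    push Not at hlt
    refine hn (hn₀ (f n) (hfP n).1 (hfP n).2.2.2 ?_ hlt)
    intro x hx
    refine hg _ ((hfP n).2.2.1 _ (delete_isMinor' (f n) {x}) ?_)
    intro heq
    have h1 : x ∈ ((f n).delete {x}).E := (congrArg Matroid.E heq).symm ▸ hx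
    exact h1.2 rfl
  by_cases hinf : {n | GainGraphic H (f n)}.Infinite
  · -- infinitely many gain-graphic ones
    set g := Nat.nth (fun n => GainGraphic H (f n)) with hgdef
    have hgmono : StrictMono g := Nat.nth_strictMono hinf
    have hgmem : ∀ n, GainGraphic H (f (g n)) := fun n => Nat.nth_mem_of_infinite hinf n
    obtain ⟨m, n, hmn, ψ, hinj, hmaps, hind⟩ := wqo H c (fun n => f (g n)) hgmem
      (fun n => (hfP (g n)).2.2.2)
    have hlt := hgmono hmn
    set N := f (g n) with hN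
    set M := f (g m) with hM
    have hsub : ψ '' M.E ⊆ N.E := by
      rintro _ ⟨e, he, rfl⟩
      exact hmaps e he
    have hiso : Iso M (N.restrict (ψ '' M.E)) := by
      refine ⟨ψ, hinj.bijOn_image, fun I hI => ?_⟩
      rw [hind I hI, Matroid.restrict_indep_iff]
      constructor
      · exact fun h => ⟨h, Set.image_mono hI⟩
      · exact fun h => h.1
    by_cases hEq : N.restrict (ψ '' M.E) = N
    · rw [hEq] at hiso
      exact hfr _ _ hlt hiso.symm
    · have h1 : N.restrict (ψ '' M.E) ∈ 𝓜 :=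
        (hfP (g n)).2.2.1 _ (restrict_isMinor' hsub) hEq
      exact (hfP (g m)).2.1 (hi _ h1 M hiso.symm)
  · have hinf' : {n | GainGraphic H (f n)}ᶜ.Infinite := (Set.not_infinite.mp hinf).infinite_compl
    obtain ⟨m, hm, n, hn, hmn, hiso⟩ := exists_iso_of_small f (fun n => (hfP n).1) hinf' n₀
      (fun n hn => hsmall n hn)
    rcases lt_or_gt_of_ne hmn with h | h
    · exact hfr _ _ h hiso.symm
    · exact hfr _ _ h hiso

/-- If no member of the class has a circuit with exactly `n` elements, then all circuits of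
excluded minors have at most `n` elements. -/
theorem circLe_of_omits {𝓜 : Set (Matroid ℕ)} {n : ℕ} (hn : 1 ≤ n)
    (hom : ∀ M ∈ 𝓜, ∀ C, M.IsCircuit C → C.ncard ≠ n) {N : Matroid ℕ} (hfin : N.E.Finite)
    (hmin : ∀ N' : Matroid ℕ, Matroid.IsMinor N' N → N' ≠ N → N' ∈ 𝓜) : CircLe N n := by
  intro C hC
  by_contra hlt
  push Not at hlt
  have hCfin : C.Finite := hfin.subset hC.subset_ground
  obtain ⟨Y, hYC, hY⟩ := Set.exists_subset_card_eq (s := C) (n := n) hlt.le
  have hYne : Y.Nonempty := by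
    rw [← Set.ncard_pos (hCfin.subset hYC)]
    omega
  have h1 := hC.contract_sdiff_isCircuit hYne hYC
  have h2 : (N.contract (C \ Y)) ∈ 𝓜 := by
    refine hmin _ (contract_isMinor' N _) ?_
    intro heq
    have h3 : (C \ Y).Nonempty := by
      rw [← Set.ncard_pos (hCfin.subset Set.sdiff_subset), Set.ncard_sdiff hYC (hCfin.subset hYC)]
      omega
    obtain ⟨x, hx⟩ := h3
    have h4 : x ∈ (N.contract (C \ Y)).E :=
      (congrArg Matroid.E heq).symm ▸ hC.subset_ground hx.1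
    exact h4.2 hx
  exact hom _ h2 Y h1 hY

end Pool.Agent.Helper25.GG
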